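import Mathlib
import Pool.Agent.Lib.SMO.Final

/-!
No algorithm decides a property of closed oriented topological four-manifolds, given by handle data, which
holds for the simply connected non-spin ones with vanishing Kirby-Siebenmann invariant and fails for those
with a finite spin covering violating the 10/8-inequality. Smoothability is such a property, by theorems of
Freedman and Furuta.
-/

set_option autoImplicit false

namespace Pool.Agent.Results.MP_60462a_gt.NoAlgorithm

open Pool.Agent.Lib.SMO

/-- `D : Data` consists of the number of the one-handles, the attaching words and framings of the
two-handles of an orientable five-dimensional handlebody `W`, and a number `e`; `X D` is the connected sum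
of the boundary of `W` with `e` copies of the `E₈`-manifold. The predicate `S` is arbitrary. It may be
`S D := X D admits a smooth structure`: the hypothesis `h1` is then Freedman's classification (`X D` is
homeomorphic to a connected sum of copies of the complex projective plane with both orientations) and `h2`
is Furuta's 10/8-theorem (a finite covering of a smooth manifold is smooth). -/
theorem result (S : Data → Prop)
    (h1 : ∀ D, Wf D → SimplyConnectedNonspin D → Even D.2.2 → S D)
    (h2 : ∀ D, Wf D → SpinCoverBelowTenEighths D → ¬ S D) :
    ¬ ComputablePred S :=
  main S h1 h2

end Pool.Agent.Results.MP_60462a_gt.NoAlgorithm
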